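import Mathlib
import Pool.Agent.H370R2.Digamma

set_option autoImplicit false

/-!
# Algebraic independence of the zeros of horizontal shifts of the xi function: statements

`xi*(s) = s (s-1) π^(-s/2) Γ(s/2) ζ(s)`, `X a t = Re xi*(1/2 + a + i t)`. For all real `a > 1/2` outside a
countable set the positive zeros of `X a` are algebraically independent over the rationals.

Proof. `xi* = exp ell` on `Re s > 1`, `ell = g + Z` with the Gamma part `g` and `Z = log ζ`. The zeros are the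
solutions `t = τ n a` of `GG a t = (n + 1/2) π`, and are real analytic functions of `a > 1/2`. An identity
`P (τ n_1 a, ...) = 0` extends to complex `a` with large real part, where `t = τ n a` is the small solution of
`t = w (y - Hh a t)`, `w = 1 / g'(1/2 + a)`, `y = (n + 1/2) π`. For `a = x + i Y`, `Y → ∞`, `- Hh a t` is
`S σ (ph Y) t + O (1 / Y)`, `σ = 1/2 + x`, where `ph Y = (p ^ (-iY))_p`, and `w` is of size `1 / log Y`. By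
Kronecker's theorem all phases `ω` occur, and comparing powers of `w` gives `P (TT w ω) = 0` for all small `w`
and all phases; then for all `ω` in the closed polydisc; there the values of `TT` contain an open set.
-/

namespace Pool.Agent.W186.AI

open Complex Filter Topology Metric Set
open scoped Real

/-- The Gamma part of the logarithm of `s (s-1) π^(-s/2) Γ(s/2) ζ(s)`. -/
noncomputable def g (s : ℂ) : ℂ :=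
  log s + log (s - 1) - s / 2 * ((Real.log π : ℝ) : ℂ) + H370.DG.lG (s / 2)

/-- The logarithm of zeta on `Re s > 1`. -/
noncomputable def Z (s : ℂ) : ℂ := -∑' p : Nat.Primes, log (1 - ((p : ℕ) : ℂ) ^ (-s))

noncomputable def ell (s : ℂ) : ℂ := g s + Z s

noncomputable def GG (a t : ℂ) : ℂ := (ell (1 / 2 + a + I * t) - ell (1 / 2 + a - I * t)) / (2 * I)

noncomputable def La (a : ℂ) : ℂ := deriv g (1 / 2 + a)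

noncomputable def Hh (a t : ℂ) : ℂ := GG a t - t * La a

noncomputable def ph (Y : ℝ) (p : Nat.Primes) : ℂ := ((p : ℕ) : ℂ) ^ (-(I * (Y : ℂ)))

noncomputable def S (σ : ℝ) (ω : Nat.Primes → ℂ) (t : ℂ) : ℂ :=
  (∑' p : Nat.Primes, (log (1 - ω p * ((p : ℕ) : ℂ) ^ (-((σ : ℂ) + I * t))) -
    log (1 - ω p * ((p : ℕ) : ℂ) ^ (-((σ : ℂ) - I * t))))) / (2 * I)

/-- `Re (s (s-1) π^(-s/2) Γ(s/2) ζ(s))` at `s = 1/2 + a + i t`. -/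
noncomputable def X (a t : ℝ) : ℝ :=
  ((1 / 2 + (a : ℂ) + I * (t : ℂ)) * (1 / 2 + (a : ℂ) + I * (t : ℂ) - 1) *
    completedRiemannZeta (1 / 2 + (a : ℂ) + I * (t : ℂ))).re

/-- `(n + 1/2) π`. -/
noncomputable def yy (n : ℕ) : ℝ := ((n : ℝ) + 1 / 2) * π

/-- `τ n a`, `n = 0, 1, 2, ...`, are the positive zeros of `X a`, for every `a > 1/2`. -/
def IsEnum (τ : ℕ → ℝ → ℝ) : Prop :=
  (∀ (n : ℕ) (a : ℝ), 1 / 2 < a → 0 < τ n a ∧ GG (a : ℂ) ((τ n a : ℝ) : ℂ) = ((yy n : ℝ) : ℂ)) ∧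
  (∀ (n : ℕ) (a t : ℝ), 1 / 2 < a → 0 < t → GG (a : ℂ) (t : ℂ) = ((yy n : ℝ) : ℂ) → t = τ n a) ∧
  (∀ a t : ℝ, 1 / 2 < a → 0 < t → X a t = 0 → ∃ n : ℕ, t = τ n a) ∧
  (∀ (n : ℕ) (a : ℝ), 1 / 2 < a → X a (τ n a) = 0)

/-! ### the fixed point -/

noncomputable def it (f : ℂ → ℂ) (w : ℂ) : ℕ → ℂ
  | 0 => 0
  | k + 1 => w * f (it f w k)

noncomputable def fp (f : ℂ → ℂ) (w : ℂ) : ℂ := limUnder atTop (it f w)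

/-- bounded by `M` and `M`-Lipschitz on the open unit disc. -/
def Good (M : ℝ) (f : ℂ → ℂ) : Prop :=
  (∀ t ∈ ball (0 : ℂ) 1, ‖f t‖ ≤ M) ∧
    ∀ t ∈ ball (0 : ℂ) 1, ∀ u ∈ ball (0 : ℂ) 1, ‖f t - f u‖ ≤ M * ‖t - u‖

/-- FPL: the fixed point lemma. -/
def S_FPL : Prop := ∀ (M : ℝ) (f : ℂ → ℂ) (w : ℂ), 1 ≤ M → Good M f → ‖w‖ * (2 * M) ≤ 1 →
  ‖fp f w‖ ≤ 1 / 2 ∧ fp f w = w * f (fp f w) ∧ (∀ t : ℂ, ‖t‖ < 1 → t = w * f t → t = fp f w) ∧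
  (∀ k : ℕ, ‖it f w k‖ ≤ 1 / 2 ∧ ‖it f w k - fp f w‖ ≤ (1 / 2) ^ k) ∧
  (∀ (h : ℂ → ℂ) (ε : ℝ), Good M h → (∀ t ∈ ball (0 : ℂ) 1, ‖f t - h t‖ ≤ ε) → ‖fp f w - fp h w‖ ≤ ε)

/-- FPH: holomorphic dependence on a parameter. -/
def S_FPH : Prop := ∀ (M : ℝ) (U : Set ℂ) (w : ℂ → ℂ) (f : ℂ → ℂ → ℂ), 1 ≤ M → IsOpen U →
  DifferentiableOn ℂ w U →
  DifferentiableOn ℂ (fun q : ℂ × ℂ => f q.1 q.2) (U ×ˢ ball (0 : ℂ) 1) →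
  (∀ x ∈ U, Good M (f x)) → (∀ x ∈ U, ‖w x‖ * (2 * M) ≤ 1) →
  DifferentiableOn ℂ (fun x => fp (f x) (w x)) U

/-- FPC: continuous dependence on a parameter. -/
def S_FPC : Prop := ∀ (M : ℝ) (A : Type) [TopologicalSpace A] (w : A → ℂ) (f : A → ℂ → ℂ), 1 ≤ M →
  Continuous w → ContinuousOn (fun q : A × ℂ => f q.1 q.2) (univ ×ˢ ball (0 : ℂ) 1) →
  (∀ x, Good M (f x)) → (∀ x, ‖w x‖ * (2 * M) ≤ 1) → Continuous (fun x => fp (f x) (w x))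

/-! ### the Gamma part, the zeta part -/

/-- GAM: facts on the Gamma part. -/
def S_GAM : Prop :=
  DifferentiableOn ℂ g {s : ℂ | 1 < s.re} ∧
  (∀ s : ℂ, 1 < s.re → cexp (g s) = s * (s - 1) * Gammaℝ s) ∧
  (∀ s : ℂ, 1 < s.re → g ((starRingEnd ℂ) s) = (starRingEnd ℂ) (g s))

/-- GD1: size of the derivative of the Gamma part. -/
def S_GD1 : Prop := ∃ C : ℝ, ∀ s : ℂ, 1 < s.re → (2 ≤ s.re ∨ 1 ≤ |s.im|) → ‖deriv g s - log s / 2‖ ≤ C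

/-- GD2: size of the second derivative of the Gamma part. -/
def S_GD2 : Prop := ∃ C : ℝ, ∀ s : ℂ, 2 ≤ s.re → ‖deriv (deriv g) s‖ ≤ C ∧ ‖deriv (deriv g) s‖ * |s.im| ≤ C

/-- ZET: facts on the logarithm of zeta. -/
def S_ZET : Prop :=
  DifferentiableOn ℂ Z {s : ℂ | 1 < s.re} ∧
  (∀ s : ℂ, 1 < s.re → cexp (Z s) = riemannZeta s) ∧
  (∀ s : ℂ, 1 < s.re → Z ((starRingEnd ℂ) s) = (starRingEnd ℂ) (Z s)) ∧
  (∀ x : ℝ, 1 < x → ∃ C : ℝ, ∀ s : ℂ, x ≤ s.re → ‖Z s‖ ≤ C)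

/-- ZS: the link between `Z` and `S`. -/
def S_ZS : Prop := ∀ (x Y : ℝ) (t : ℂ), 10 ≤ x → ‖t‖ < 1 →
  (Z (1 / 2 + ((x : ℂ) + I * (Y : ℂ)) + I * t) - Z (1 / 2 + ((x : ℂ) + I * (Y : ℂ)) - I * t)) / (2 * I) =
    -S (1 / 2 + x) (ph Y) t

/-- SGD: facts on `S` on the closed polydisc. -/
def S_SGD : Prop := ∀ σ : ℝ, 10 ≤ σ →
  (∀ ω : Nat.Primes → ℂ, (∀ p, ‖ω p‖ ≤ 1) → Good 1 (S σ ω) ∧ DifferentiableOn ℂ (S σ ω) (ball (0 : ℂ) 1)) ∧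
  ContinuousOn (fun q : (Nat.Primes → ℂ) × ℂ => S σ q.1 q.2) ({ω | ∀ p, ‖ω p‖ ≤ 1} ×ˢ ball (0 : ℂ) 1)

/-- SUP: `S` is holomorphic in one of the coordinates of `ω`, jointly with `t`. -/
def S_SUP : Prop := ∀ σ : ℝ, 10 ≤ σ → ∀ ω : Nat.Primes → ℂ, (∀ p, ‖ω p‖ ≤ 1) → ∀ p : Nat.Primes,
  DifferentiableOn ℂ (fun q : ℂ × ℂ => S σ (Function.update ω p q.1) q.2)
    (ball (0 : ℂ) 1 ×ˢ ball (0 : ℂ) 1)

/-- MON: the logarithmic derivative of xi has positive real part on `Re s > 1`. -/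
def S_MON : Prop := ∀ s : ℂ, 1 < s.re → 0 < (deriv ell s).re

/-- ENU: the enumeration of the zeros. -/
def S_ENU : Prop := ∃ τ : ℕ → ℝ → ℝ, IsEnum τ

/-- RAN: the zeros are real analytic functions of `a`. -/
def S_RAN : Prop := ∀ τ : ℕ → ℝ → ℝ, IsEnum τ → ∀ n : ℕ, AnalyticOnNhd ℝ (τ n) (Ioi (1 / 2))

/-- LAM: the size of `La`. -/
def S_LAM : Prop :=
  DifferentiableOn ℂ La {a : ℂ | 1 / 2 < a.re} ∧
  (∀ K : ℝ, ∃ x0 : ℝ, 10 ≤ x0 ∧ ∀ a : ℂ, x0 ≤ a.re → K ≤ ‖La a‖) ∧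
  (∀ x : ℝ, 10 ≤ x → Tendsto (fun Y : ℝ => ‖La ((x : ℂ) + I * (Y : ℂ))‖) atTop atTop) ∧
  (∀ x : ℝ, 10 ≤ x → ∀ k : ℕ, Tendsto (fun Y : ℝ => ‖La ((x : ℂ) + I * (Y : ℂ))‖ ^ k / Y) atTop (𝓝 0))

/-- HGD: facts on `Hh`. -/
def S_HGD : Prop := ∃ C : ℝ, 1 ≤ C ∧ (∀ a : ℂ, 10 ≤ a.re → Good C (Hh a)) ∧
  DifferentiableOn ℂ (fun q : ℂ × ℂ => Hh q.1 q.2) ({a : ℂ | 10 < a.re} ×ˢ ball (0 : ℂ) 1) ∧
  ∀ x Y : ℝ, 10 ≤ x → 1 ≤ Y → ∀ t ∈ ball (0 : ℂ) 1,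
    ‖Hh ((x : ℂ) + I * (Y : ℂ)) t + S (1 / 2 + x) (ph Y) t‖ ≤ C / Y

/-- EXT: for large `a` the zero `τ n a` is the fixed point. -/
def S_EXT : Prop := ∀ τ : ℕ → ℝ → ℝ, IsEnum τ → ∀ n : ℕ, ∃ x0 : ℝ, 10 ≤ x0 ∧ ∀ a : ℝ, x0 ≤ a →
  ((τ n a : ℝ) : ℂ) = fp (fun t => ((yy n : ℝ) : ℂ) - Hh (a : ℂ) t) (La (a : ℂ))⁻¹

/-- CPX: a polynomial identity extends to complex `a`. -/
def S_CPX : Prop := ∀ τ : ℕ → ℝ → ℝ, IsEnum τ → ∀ (m : ℕ) (n : Fin m → ℕ) (P : MvPolynomial (Fin m) ℂ),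
  (∀ a : ℝ, 1 / 2 < a → MvPolynomial.eval (fun i => ((τ (n i) a : ℝ) : ℂ)) P = 0) →
  ∃ x0 : ℝ, 10 ≤ x0 ∧ ∀ a : ℂ, x0 < a.re →
    MvPolynomial.eval (fun i => fp (fun t => ((yy (n i) : ℝ) : ℂ) - Hh a t) (La a)⁻¹) P = 0

/-- KRO: Kronecker's theorem. -/
def S_KRO : Prop := ∀ ω : Nat.Primes → ℂ, (∀ p, ‖ω p‖ = 1) → ∃ Y : ℕ → ℝ, Tendsto Y atTop atTop ∧
  Tendsto (fun k => ph (Y k)) atTop (𝓝 ω)

/-- LEA: comparing powers of `w`. -/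
def S_LEA : Prop := ∀ (A : Type) [TopologicalSpace A] (K : Set A) (r B : ℝ) (R : ℂ → A → ℂ), 0 < r →
  (∀ x ∈ K, DifferentiableOn ℂ (fun w => R w x) (ball (0 : ℂ) r)) →
  (∀ x ∈ K, ∀ w ∈ ball (0 : ℂ) r, ‖R w x‖ ≤ B) →
  ContinuousOn (fun q : ℂ × A => R q.1 q.2) (ball (0 : ℂ) r ×ˢ K) →
  (∀ x0 ∈ K, ∃ (w : ℕ → ℂ) (x : ℕ → A), Tendsto w atTop (𝓝 0) ∧ (∀ n, w n ≠ 0 ∧ x n ∈ K) ∧
    Tendsto x atTop (𝓝 x0) ∧ ∀ k : ℕ, Tendsto (fun n => R (w n) (x n) / (w n) ^ k) atTop (𝓝 0)) →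
  ∀ x ∈ K, ∀ w ∈ ball (0 : ℂ) r, R w x = 0

/-- The model solution. -/
noncomputable def TT (σ y : ℝ) (w : ℂ) (ω : Nat.Primes → ℂ) : ℂ := fp (fun t => (y : ℂ) + S σ ω t) w

/-- TTH: the model solution is holomorphic in `w`, bounded and continuous. -/
def S_TTH : Prop := ∀ (σ y r : ℝ), 10 ≤ σ → 0 ≤ y → 0 < r → r * (2 * (y + 1)) ≤ 1 →
  (∀ ω : Nat.Primes → ℂ, (∀ p, ‖ω p‖ ≤ 1) → ∀ w ∈ ball (0 : ℂ) r, ‖TT σ y w ω‖ ≤ 1 / 2 ∧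
    TT σ y w ω = w * (y + S σ ω (TT σ y w ω)) ∧ ∀ t : ℂ, ‖t‖ < 1 → t = w * (y + S σ ω t) → t = TT σ y w ω) ∧
  (∀ ω : Nat.Primes → ℂ, (∀ p, ‖ω p‖ ≤ 1) → DifferentiableOn ℂ (fun w => TT σ y w ω) (ball (0 : ℂ) r)) ∧
  ContinuousOn (fun q : ℂ × (Nat.Primes → ℂ) => TT σ y q.1 q.2) (ball (0 : ℂ) r ×ˢ {ω | ∀ p, ‖ω p‖ ≤ 1}) ∧
  (∀ ω : Nat.Primes → ℂ, (∀ p, ‖ω p‖ ≤ 1) → ∀ w ∈ ball (0 : ℂ) r, ∀ p : Nat.Primes,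
    DifferentiableOn ℂ (fun u => TT σ y w (Function.update ω p u)) (ball (0 : ℂ) 1))

/-- TOR: the identity on the torus. -/
def S_TOR : Prop := ∀ τ : ℕ → ℝ → ℝ, IsEnum τ → ∀ (m : ℕ) (n : Fin m → ℕ) (P : MvPolynomial (Fin m) ℂ),
  (∀ a : ℝ, 1 / 2 < a → MvPolynomial.eval (fun i => ((τ (n i) a : ℝ) : ℂ)) P = 0) →
  ∃ σ r : ℝ, 10 ≤ σ ∧ 0 < r ∧ (∀ i, r * (2 * (yy (n i) + 1)) ≤ 1) ∧
    ∀ ω : Nat.Primes → ℂ, (∀ p, ‖ω p‖ = 1) → ∀ w ∈ ball (0 : ℂ) r,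
      MvPolynomial.eval (fun i => TT σ (yy (n i)) w ω) P = 0

/-- POL: from the torus to the closed polydisc. -/
def S_POL : Prop := ∀ (m : ℕ) (y : Fin m → ℝ) (σ r : ℝ) (P : MvPolynomial (Fin m) ℂ), 10 ≤ σ → 0 < r →
  (∀ i, 0 ≤ y i ∧ r * (2 * (y i + 1)) ≤ 1) →
  (∀ ω : Nat.Primes → ℂ, (∀ p, ‖ω p‖ = 1) → ∀ w ∈ ball (0 : ℂ) r,
      MvPolynomial.eval (fun i => TT σ (y i) w ω) P = 0) →
  ∀ ω : Nat.Primes → ℂ, (∀ p, ‖ω p‖ ≤ 1) → ∀ w ∈ ball (0 : ℂ) r,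
      MvPolynomial.eval (fun i => TT σ (y i) w ω) P = 0

/-- TRG: the sine vectors of finitely many primes span. -/
def S_TRG : Prop := ∀ (m : ℕ) (n : Fin m → ℕ), Function.Injective n → ∀ r : ℝ, 0 < r →
  ∃ w : ℝ, 0 < w ∧ w < r ∧ ∃ (N : ℕ) (p : Fin N → Nat.Primes), Function.Injective p ∧
    ∀ c : Fin m → ℂ, (∀ j, ∑ i, c i * ((Real.sin (w * yy (n i) * Real.log (p j)) : ℝ) : ℂ) = 0) → c = 0

/-- OPN: the values of the model solution on the polydisc contain an open set, so `P = 0`. -/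
def S_OPN : Prop := ∀ (m : ℕ) (n : Fin m → ℕ) (σ r : ℝ) (P : MvPolynomial (Fin m) ℂ),
  Function.Injective n → 10 ≤ σ → 0 < r → (∀ i, r * (2 * (yy (n i) + 1)) ≤ 1) →
  (∀ ω : Nat.Primes → ℂ, (∀ p, ‖ω p‖ ≤ 1) → ∀ w ∈ ball (0 : ℂ) r,
      MvPolynomial.eval (fun i => TT σ (yy (n i)) w ω) P = 0) → P = 0

/-- The zeros `τ n_1 a, ..., τ n_m a` are algebraically independent functions. -/
def S_COR : Prop := ∀ τ : ℕ → ℝ → ℝ, IsEnum τ → ∀ (m : ℕ) (n : Fin m → ℕ) (P : MvPolynomial (Fin m) ℂ),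
  Function.Injective n →
  (∀ a : ℝ, 1 / 2 < a → MvPolynomial.eval (fun i => ((τ (n i) a : ℝ) : ℂ)) P = 0) → P = 0

/-- The result. -/
def S_MAIN : Prop := ∃ B : Set ℝ, B.Countable ∧ ∀ a : ℝ, 1 / 2 < a → a ∉ B →
  AlgebraicIndependent ℚ (fun t : {t : ℝ // 0 < t ∧ X a t = 0} => (t : ℝ))

end Pool.Agent.W186.AI
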