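import Pool.Agent.W186.AI.Spec
import Pool.Agent.W926.AI.CNT

set_option autoImplicit false

/-!
# The result over every countable field (after `W926.AI.CNT`)
-/

namespace Pool.Agent.W186.AI.CntP

open Pool.Agent.W186.AI Filter Topology Set

theorem countable_mv (F : Type) [Field F] [Countable F] (m : ℕ) : Countable (MvPolynomial (Fin m) F) := by
  have h : Cardinal.mk (MvPolynomial (Fin m) F) ≤ Cardinal.aleph0 := by
    refine (MvPolynomial.cardinalMk_le_max (σ := Fin m) (R := F)).trans ?_
    simp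
  exact Cardinal.mk_le_aleph0_iff.1 h

theorem main (he : S_ENU) (hr : S_RAN) (hc : S_COR) (F : Type) [Field F] [Countable F] [Algebra F ℝ] :
    ∃ B : Set ℝ, B.Countable ∧ ∀ a : ℝ, 1 / 2 < a → a ∉ B →
      AlgebraicIndependent F (fun t : {t : ℝ // 0 < t ∧ X a t = 0} => (t : ℝ)) := by
  classical
  obtain ⟨τ, hτ⟩ := he
  have han := hr τ hτ
  let Ix : Type := Σ m : ℕ, (Fin m → ℕ) × MvPolynomial (Fin m) F
  let G : Ix → ℝ → ℝ := fun i a => MvPolynomial.aeval (fun j => τ (i.2.1 j) a) i.2.2
  have hIx : Countable Ix := by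
    have : ∀ m : ℕ, Countable (MvPolynomial (Fin m) F) := countable_mv F
    infer_instance
  refine ⟨⋃ i : {i : Ix // Function.Injective i.2.1 ∧ i.2.2 ≠ 0}, {a : ℝ | 1 / 2 < a ∧ G i.1 a = 0}, ?_, ?_⟩
  · refine Set.countable_iUnion fun i => ?_
    obtain ⟨⟨m, n, P⟩, hinj, hP⟩ := i
    refine Pool.Agent.W926.AI.CNT.zeros_countable _ ?_ ?_
    · have e : G ⟨m, n, P⟩ = fun a => MvPolynomial.aeval (fun j => τ (n j) a) (MvPolynomial.map (algebraMap F ℝ) P) := by
        funext a
        show MvPolynomial.aeval (fun j => τ (n j) a) P = _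
        rw [MvPolynomial.aeval_map_algebraMap]
      rw [e]
      exact AnalyticOnNhd.aeval_mvPolynomial (fun j => han (n j)) _
    · intro h0
      apply hP
      have h1 : (MvPolynomial.map ((algebraMap ℝ ℂ).comp (algebraMap F ℝ)) P) = 0 := by
        refine hc τ hτ m n _ hinj ?_
        intro a ha
        have h2 : MvPolynomial.aeval (fun j => τ (n j) a) P = 0 := h0 a ha
        rw [MvPolynomial.aeval_def, MvPolynomial.eval₂_eq_eval_map] at h2
        have h3 := congrArg (algebraMap ℝ ℂ) h2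
        rw [map_zero] at h3
        rw [← MvPolynomial.map_map]
        have h4 := MvPolynomial.map_eval (algebraMap ℝ ℂ) (fun j => τ (n j) a) (MvPolynomial.map (algebraMap F ℝ) P)
        rw [h3] at h4
        exact h4.symm
      exact (MvPolynomial.map_injective _ ((algebraMap ℝ ℂ).comp (algebraMap F ℝ)).injective) (by rw [h1, map_zero])
  · intro a ha haB
    have hidx : ∀ t : {t : ℝ // 0 < t ∧ X a t = 0}, ∃ k : ℕ, (t : ℝ) = τ k a :=
      fun t => hτ.2.2.1 a t ha t.2.1 t.2.2
    choose idx hidx using hidx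
    have hinj : Function.Injective idx := by
      intro s t hst
      apply Subtype.ext
      rw [hidx s, hidx t, hst]
    rw [algebraicIndependent_iff]
    intro p hp
    obtain ⟨m, f, hf, q, rfl⟩ := MvPolynomial.exists_fin_rename p
    rw [MvPolynomial.aeval_rename] at hp
    by_contra hq
    have hq0 : q ≠ 0 := by
      rintro rfl
      exact hq (map_zero _)
    apply haB
    rw [mem_iUnion]
    refine ⟨⟨⟨m, fun i => idx (f i), q⟩, ⟨fun i j hij => hf (hinj hij), hq0⟩⟩, ha, ?_⟩
    have h5 : (fun i => τ (idx (f i)) a) = (fun t : {t : ℝ // 0 < t ∧ X a t = 0} => (t : ℝ)) ∘ f := by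
      funext i
      exact (hidx (f i)).symm
    change MvPolynomial.aeval (fun i => τ (idx (f i)) a) q = 0
    rw [h5]
    exact hp

theorem infinite_zeros (he : S_ENU) (a : ℝ) (ha : 1 / 2 < a) : {t : ℝ | 0 < t ∧ X a t = 0}.Infinite := by
  obtain ⟨τ, hτ⟩ := he
  have hinj : Function.Injective (fun n => τ n a) := by
    intro n k h
    have h1 := (hτ.1 n a ha).2
    have h2 := (hτ.1 k a ha).2
    simp only at h
    rw [h, h2] at h1
    have h3 : yy k = yy n := by exact_mod_cast h1
    unfold yy at h3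
    have h4 : (k : ℝ) + 1 / 2 = (n : ℝ) + 1 / 2 := mul_right_cancel₀ Real.pi_ne_zero h3
    have h5 : (k : ℝ) = n := by linarith
    exact_mod_cast h5.symm
  exact (Set.infinite_range_of_injective hinj).mono (by
    rintro _ ⟨n, rfl⟩
    exact ⟨(hτ.1 n a ha).1, hτ.2.2.2 n a ha⟩)

end Pool.Agent.W186.AI.CntP
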