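import Pool.Agent.W186.AI.Spec

set_option autoImplicit false

/-!
# The core statement from its parts
-/

namespace Pool.Agent.W186.AI

theorem yy_nonneg (n : ℕ) : 0 ≤ yy n := by
  unfold yy; positivity

theorem cor (hT : S_TOR) (hP : S_POL) (hO : S_OPN) : S_COR := by
  intro τ hτ m n P hn h0
  obtain ⟨σ, r, hσ, hr, hri, hz⟩ := hT τ hτ m n P h0
  exact hO m n σ r P hn hσ hr hri
    (hP m (fun i => yy (n i)) σ r P hσ hr (fun i => ⟨yy_nonneg _, hri i⟩) hz)

end Pool.Agent.W186.AI
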