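import Pool.Agent.W186.AI.Tor

set_option autoImplicit false

/-!
# A polynomial identity extends to complex `a`
-/

namespace Pool.Agent.W186.AI.CpxP

open Complex Filter Topology Metric Set
open Pool.Agent.W186.AI

lemma half_zero (F : ℂ → ℂ) (x0 : ℝ) (hF : DifferentiableOn ℂ F {a : ℂ | x0 < a.re})
    (h0 : ∀ a : ℝ, x0 < a → F (a : ℂ) = 0) : ∀ a : ℂ, x0 < a.re → F a = 0 := by
  have hU : IsOpen {a : ℂ | x0 < a.re} := isOpen_lt continuous_const continuous_re
  have han : AnalyticOnNhd ℂ F {a : ℂ | x0 < a.re} := hF.analyticOnNhd hU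
  have hpc : IsPreconnected {a : ℂ | x0 < a.re} := (convex_halfSpace_re_gt x0).isPreconnected
  have hz0 : ((x0 + 1 : ℝ) : ℂ) ∈ {a : ℂ | x0 < a.re} := by simp
  have hfr : ∃ᶠ z in 𝓝[≠] (((x0 + 1 : ℝ) : ℂ)), F z = 0 := by
    have h1 : Tendsto (fun k : ℕ => ((x0 + 1 + 1 / ((k : ℝ) + 1) : ℝ) : ℂ)) atTop (𝓝[≠] ((x0 + 1 : ℝ) : ℂ)) := by
      refine tendsto_nhdsWithin_iff.2 ⟨?_, Eventually.of_forall fun k => ?_⟩
      · have h2 : Tendsto (fun k : ℕ => x0 + 1 + 1 / ((k : ℝ) + 1)) atTop (𝓝 (x0 + 1 + 0)) :=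
          tendsto_const_nhds.add tendsto_one_div_add_atTop_nhds_zero_nat
        rw [add_zero] at h2
        exact (Complex.continuous_ofReal.tendsto _).comp h2
      · simp only [mem_compl_iff, mem_singleton_iff]
        intro h
        have h3 : x0 + 1 + 1 / ((k : ℝ) + 1) = x0 + 1 := by exact_mod_cast h
        have h4 : 0 < 1 / ((k : ℝ) + 1) := by positivity
        linarith
    refine h1.frequently (Eventually.of_forall fun k => ?_).frequently
    refine h0 _ ?_
    have h4 : 0 < 1 / ((k : ℝ) + 1) := by positivity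
    linarith
  intro a ha
  exact han.eqOn_zero_of_preconnected_of_frequently_eq_zero hpc hz0 hfr ha

theorem main (hf : S_FPL) (hh : S_FPH) (hl : S_LAM) (hH : S_HGD) (he : S_EXT) : S_CPX := by
  intro τ hτ m n P h0
  choose x1 hx1 hx1' using fun i => he τ hτ (n i)
  obtain ⟨C, hC1, hGood, hdiff, -⟩ := hH
  obtain ⟨hLad, hl2, -, -⟩ := hl
  have hyn : ∀ k : ℕ, 0 ≤ yy k := fun k => by unfold yy; positivity
  set Y0 : ℝ := ∑ i, yy (n i) with hY0
  have hY0n : 0 ≤ Y0 := Finset.sum_nonneg fun i _ => hyn _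
  have hyY : ∀ i, yy (n i) ≤ Y0 := fun i =>
    Finset.single_le_sum (f := fun i => yy (n i)) (fun j _ => hyn _) (Finset.mem_univ i)
  set M : ℝ := C + Y0 + 1 with hM
  have hM1 : 1 ≤ M := by linarith
  obtain ⟨x2, hx2, hx2'⟩ := hl2 (2 * M)
  set x3 : ℝ := ∑ i, x1 i with hx3
  have hx13 : ∀ i, x1 i ≤ x3 := fun i =>
    Finset.single_le_sum (f := x1) (fun j _ => by have := hx1 j; linarith) (Finset.mem_univ i)
  have hx3n : 0 ≤ x3 := Finset.sum_nonneg fun i _ => by have := hx1 i; linarith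
  set x0 : ℝ := x2 + x3 with hx0
  refine ⟨x0, by linarith, ?_⟩
  have hU : IsOpen {a : ℂ | x0 < a.re} := isOpen_lt continuous_const continuous_re
  have hLaM : ∀ a : ℂ, x0 < a.re → 2 * M ≤ ‖La a‖ := fun a ha => hx2' a (by linarith)
  have hLa0 : ∀ a : ℂ, x0 < a.re → La a ≠ 0 := fun a ha h => by
    have := hLaM a ha
    rw [h, norm_zero] at this
    linarith
  have hG : ∀ i, ∀ a ∈ {a : ℂ | x0 < a.re}, Good M (fun t => ((yy (n i) : ℝ) : ℂ) - Hh a t) := by
    intro i a ha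
    have ha' : x0 < a.re := ha
    obtain ⟨g1, g2⟩ := hGood a (by linarith)
    refine ⟨fun t htt => ?_, fun t htt u huu => ?_⟩
    · refine (norm_sub_le _ _).trans ?_
      rw [Complex.norm_real, Real.norm_of_nonneg (hyn _)]
      have := g1 t htt
      have := hyY i
      linarith
    · have e1 : ((yy (n i) : ℝ) : ℂ) - Hh a t - (((yy (n i) : ℝ) : ℂ) - Hh a u) = -(Hh a t - Hh a u) := by ring
      rw [e1, norm_neg]
      refine (g2 t htt u huu).trans (mul_le_mul_of_nonneg_right ?_ (norm_nonneg _))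
      linarith
  have hd : ∀ i, DifferentiableOn ℂ (fun a => fp (fun t => ((yy (n i) : ℝ) : ℂ) - Hh a t) (La a)⁻¹)
      {a : ℂ | x0 < a.re} := by
    intro i
    refine hh M {a : ℂ | x0 < a.re} (fun a => (La a)⁻¹) (fun a t => ((yy (n i) : ℝ) : ℂ) - Hh a t) hM1 hU ?_ ?_
      (hG i) ?_
    · refine DifferentiableOn.inv (hLad.mono fun a ha => ?_) (fun a ha => hLa0 a ha)
      have ha' : x0 < a.re := ha
      show 1 / 2 < a.re
      linarith
    · refine (differentiableOn_const _).sub (hdiff.mono (prod_mono (fun a ha => ?_) le_rfl))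
      have ha' : x0 < a.re := ha
      show 10 < a.re
      linarith
    · intro a ha
      have h5 := hLaM a ha
      rw [norm_inv, inv_mul_le_iff₀ (by linarith)]
      linarith
  refine half_zero _ x0 (TorP.eval_diffOn P (fun i a => fp (fun t => ((yy (n i) : ℝ) : ℂ) - Hh a t) (La a)⁻¹) _ hd) ?_
  intro a ha
  have h6 : (fun i => fp (fun t => ((yy (n i) : ℝ) : ℂ) - Hh (a : ℂ) t) (La (a : ℂ))⁻¹) =
      fun i => ((τ (n i) a : ℝ) : ℂ) := by
    funext i
    exact (hx1' i a (by have := hx13 i; linarith)).symm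
  show MvPolynomial.eval (fun i => fp (fun t => ((yy (n i) : ℝ) : ℂ) - Hh (a : ℂ) t) (La (a : ℂ))⁻¹) P = 0
  rw [h6]
  exact h0 a (by linarith)

end Pool.Agent.W186.AI.CpxP
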