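import Pool.Agent.W186.AI.Spec

set_option autoImplicit false

/-!
# For large `a` the zeros are the fixed points
-/

namespace Pool.Agent.W186.AI.ExtP

open Complex Filter Topology Metric Set
open Pool.Agent.W186.AI

lemma ell_conj (hg : S_GAM) (hz : S_ZET) {s : ℂ} (hs : 1 < s.re) :
    ell ((starRingEnd ℂ) s) = (starRingEnd ℂ) (ell s) := by
  unfold ell
  rw [map_add, hg.2.2 s hs, hz.2.2.1 s hs]

lemma c2 : (starRingEnd ℂ) (2 : ℂ) = 2 := map_ofNat (starRingEnd ℂ) 2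

lemma GG_conj (hg : S_GAM) (hz : S_ZET) {a : ℝ} (ha : 10 ≤ a) {t : ℂ} (ht : ‖t‖ < 1) :
    GG (a : ℂ) ((starRingEnd ℂ) t) = (starRingEnd ℂ) (GG (a : ℂ) t) := by
  have h3 : |t.im| ≤ ‖t‖ := Complex.abs_im_le_norm t
  have h4 := abs_le.1 (h3.trans ht.le)
  unfold GG
  have e1 : (1 / 2 + (a : ℂ) + I * (starRingEnd ℂ) t) = (starRingEnd ℂ) (1 / 2 + (a : ℂ) - I * t) := by
    simp [Complex.conj_I, c2]
  have e2 : (1 / 2 + (a : ℂ) - I * (starRingEnd ℂ) t) = (starRingEnd ℂ) (1 / 2 + (a : ℂ) + I * t) := by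
    simp [Complex.conj_I, c2, sub_eq_add_neg]
  rw [e1, e2, ell_conj hg hz (by simp; linarith [h4.1, h4.2]), ell_conj hg hz (by simp; linarith [h4.1, h4.2])]
  rw [map_div₀, map_sub, map_mul, Complex.conj_I]
  rw [c2, mul_neg, div_neg, ← neg_div, neg_sub]

/-- On the real line the derivative of `GG a` has positive real part. -/
lemma GG_mono (hg : S_GAM) (hz : S_ZET) (hm : S_MON) {a : ℝ} (ha : 1 / 2 < a) {t : ℝ} (ht : 0 ≤ t) :
    0 ≤ (GG (a : ℂ) (t : ℂ)).re := by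
  have hell : DifferentiableOn ℂ ell {s : ℂ | 1 < s.re} := hg.1.add hz.1
  have ho : IsOpen {s : ℂ | 1 < s.re} := isOpen_lt continuous_const continuous_re
  have hre1 : ∀ t : ℝ, (1 / 2 + (a : ℂ) + I * (t : ℂ)) ∈ {s : ℂ | 1 < s.re} := by
    intro t; simp; linarith
  have hre2 : ∀ t : ℝ, (1 / 2 + (a : ℂ) - I * (t : ℂ)) ∈ {s : ℂ | 1 < s.re} := by
    intro t; simp; linarith
  have hder : ∀ t : ℝ, HasDerivAt (fun t : ℝ => (GG (a : ℂ) (t : ℂ)).re)
      (((deriv ell (1 / 2 + (a : ℂ) + I * (t : ℂ)) + deriv ell (1 / 2 + (a : ℂ) - I * (t : ℂ))) / 2).re) t := by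
    intro t
    have d1 : HasDerivAt ell (deriv ell (1 / 2 + (a : ℂ) + I * (t : ℂ))) (1 / 2 + (a : ℂ) + I * (t : ℂ)) :=
      ((hell _ (hre1 t)).differentiableAt (ho.mem_nhds (hre1 t))).hasDerivAt
    have d2 : HasDerivAt ell (deriv ell (1 / 2 + (a : ℂ) - I * (t : ℂ))) (1 / 2 + (a : ℂ) - I * (t : ℂ)) :=
      ((hell _ (hre2 t)).differentiableAt (ho.mem_nhds (hre2 t))).hasDerivAt
    have a1 : HasDerivAt (fun t : ℂ => 1 / 2 + (a : ℂ) + I * t) I (t : ℂ) := by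
      simpa using ((hasDerivAt_id (t : ℂ)).const_mul I).const_add (1 / 2 + (a : ℂ))
    have a2 : HasDerivAt (fun t : ℂ => 1 / 2 + (a : ℂ) - I * t) (-I) (t : ℂ) := by
      simpa using ((hasDerivAt_id (t : ℂ)).const_mul I).const_sub (1 / 2 + (a : ℂ))
    have e1 := d1.comp (t : ℂ) a1
    have e2 := d2.comp (t : ℂ) a2
    have e3 : HasDerivAt (fun t : ℂ => GG (a : ℂ) t)
        ((deriv ell (1 / 2 + (a : ℂ) + I * (t : ℂ)) + deriv ell (1 / 2 + (a : ℂ) - I * (t : ℂ))) / 2) (t : ℂ) := by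
      refine ((e1.sub e2).div_const (2 * I)).congr_deriv ?_
      have hI : (2 * I : ℂ) ≠ 0 := by simp
      field_simp
      ring
    exact e3.real_of_complex
  have hmono : Monotone (fun t : ℝ => (GG (a : ℂ) (t : ℂ)).re) := by
    refine monotone_of_deriv_nonneg (fun t => (hder t).differentiableAt) fun t => ?_
    rw [(hder t).deriv]
    have p1 := hm _ (hre1 t)
    have p2 := hm _ (hre2 t)
    have e : ((deriv ell (1 / 2 + (a : ℂ) + I * (t : ℂ)) + deriv ell (1 / 2 + (a : ℂ) - I * (t : ℂ))) / 2).re =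
      ((deriv ell (1 / 2 + (a : ℂ) + I * (t : ℂ))).re + (deriv ell (1 / 2 + (a : ℂ) - I * (t : ℂ))).re) / 2 := by
      rw [← Complex.add_re]
      simp
    rw [e]
    linarith
  have h0 : (GG (a : ℂ) ((0 : ℝ) : ℂ)).re = 0 := by simp [GG]
  have := hmono ht
  simp only at this
  rw [h0] at this
  exact this

lemma GG_odd (a t : ℂ) : GG a (-t) = -GG a t := by
  unfold GG
  have e1 : (1 / 2 + a + I * -t) = 1 / 2 + a - I * t := by ring
  have e2 : (1 / 2 + a - I * -t) = 1 / 2 + a + I * t := by ring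
  rw [e1, e2]
  ring

theorem main (hf : S_FPL) (hg : S_GAM) (hz : S_ZET) (hm : S_MON) (hl : S_LAM) (hh : S_HGD) : S_EXT := by
  intro τ hτ n
  obtain ⟨C, hC1, hGood, -, -⟩ := hh
  obtain ⟨-, hl2, -, -⟩ := hl
  have hyp : 0 < yy n := by unfold yy; positivity
  set M : ℝ := C + yy n + 1 with hM
  have hM1 : 1 ≤ M := by linarith
  obtain ⟨x2, hx2, hx2'⟩ := hl2 (2 * M)
  refine ⟨x2, hx2, fun a ha => ?_⟩
  have ha10 : 10 ≤ a := by linarith
  have hLM : 2 * M ≤ ‖La (a : ℂ)‖ := hx2' a (by simpa using ha)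
  have hL0 : La (a : ℂ) ≠ 0 := fun h => by rw [h, norm_zero] at hLM; linarith
  have hG : Good M (fun t => ((yy n : ℝ) : ℂ) - Hh (a : ℂ) t) := by
    obtain ⟨g1, g2⟩ := hGood (a : ℂ) (by simpa using ha10)
    refine ⟨fun t htt => ?_, fun t htt u huu => ?_⟩
    · refine (norm_sub_le _ _).trans ?_
      rw [Complex.norm_real, Real.norm_of_nonneg hyp.le]
      have := g1 t htt
      linarith
    · have e1 : ((yy n : ℝ) : ℂ) - Hh (a : ℂ) t - (((yy n : ℝ) : ℂ) - Hh (a : ℂ) u) =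
          -(Hh (a : ℂ) t - Hh (a : ℂ) u) := by ring
      rw [e1, norm_neg]
      refine (g2 t htt u huu).trans (mul_le_mul_of_nonneg_right ?_ (norm_nonneg _))
      linarith
  have hw : ‖(La (a : ℂ))⁻¹‖ * (2 * M) ≤ 1 := by
    rw [norm_inv, inv_mul_le_iff₀ (by linarith)]
    linarith
  obtain ⟨f1, f2, f3, -, -⟩ := hf M _ _ hM1 hG hw
  -- a point of the unit disc solves the fixed point equation iff `GG a t = y`
  have hiff : ∀ t : ℂ, (t = (La (a : ℂ))⁻¹ * (((yy n : ℝ) : ℂ) - Hh (a : ℂ) t)) ↔ GG (a : ℂ) t = ((yy n : ℝ) : ℂ) := by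
    intro t
    have e : GG (a : ℂ) t = Hh (a : ℂ) t + t * La (a : ℂ) := by unfold Hh; ring
    constructor
    · intro h
      have h1 : t * La (a : ℂ) = ((yy n : ℝ) : ℂ) - Hh (a : ℂ) t := by
        conv_lhs => rw [h]
        rw [mul_comm (La (a : ℂ))⁻¹, mul_assoc, inv_mul_cancel₀ hL0, mul_one]
      rw [e, h1]; ring
    · intro h
      rw [e] at h
      have h1 : ((yy n : ℝ) : ℂ) - Hh (a : ℂ) t = La (a : ℂ) * t := by rw [← h]; ring
      rw [h1, ← mul_assoc, inv_mul_cancel₀ hL0, one_mul]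
  set t0 : ℂ := fp (fun t => ((yy n : ℝ) : ℂ) - Hh (a : ℂ) t) (La (a : ℂ))⁻¹ with ht0
  have ht01 : ‖t0‖ < 1 := by linarith
  have hG0 : GG (a : ℂ) t0 = ((yy n : ℝ) : ℂ) := (hiff t0).1 f2
  have hconj : (starRingEnd ℂ) t0 = t0 := by
    refine f3 _ (by simpa using ht01) ((hiff _).2 ?_)
    rw [GG_conj hg hz ha10 ht01, hG0, Complex.conj_ofReal]
  have hreal : ((t0.re : ℝ) : ℂ) = t0 := by
    rw [Complex.conj_eq_iff_re] at hconj
    exact hconj
  have hpos : 0 < t0.re := by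
    by_contra hneg
    push Not at hneg
    have h1 := GG_mono hg hz hm (a := a) (by linarith) (t := -t0.re) (by linarith)
    rw [Complex.ofReal_neg, GG_odd, hreal, hG0] at h1
    simp at h1
    linarith
  rw [← hreal]
  congr 1
  refine (hτ.2.1 n a t0.re (by linarith) hpos ?_).symm
  rw [hreal, hG0]

end Pool.Agent.W186.AI.ExtP
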