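import Pool.Agent.W186.AI.Tor

set_option autoImplicit false

/-!
# From the torus to the closed polydisc
-/

namespace Pool.Agent.W186.AI.PolP

open Complex Filter Topology Metric Set
open Pool.Agent.W186.AI

theorem main (ht : S_TTH) : S_POL := by
  classical
  intro m y σ r P hσ hr hy h
  have hT := fun i => ht σ (y i) r hσ (hy i).1 hr (hy i).2
  intro ω hω w hw
  set R : (Nat.Primes → ℂ) → ℂ := fun ω => MvPolynomial.eval (fun i => TT σ (y i) w ω) P with hR
  set PD : Set (Nat.Primes → ℂ) := {ω | ∀ p, ‖ω p‖ ≤ 1} with hPD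
  have hcont : ContinuousOn R PD := by
    refine (MvPolynomial.continuous_eval P).comp_continuousOn (continuousOn_pi.2 fun i => ?_)
    have h1 := (hT i).2.2.1
    exact h1.comp (f := fun ω : Nat.Primes → ℂ => (w, ω)) (by fun_prop) (fun ω hω => ⟨hw, hω⟩)
  have hup : ∀ (ω : Nat.Primes → ℂ) (p0 : Nat.Primes) (u : ℂ), ω ∈ PD → ‖u‖ ≤ 1 →
      Function.update ω p0 u ∈ PD := by
    intro ω p0 u hω hu p
    by_cases hp : p = p0
    · subst hp
      rw [Function.update_self]
      exact hu
    · rw [Function.update_of_ne hp]
      exact hω p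
  have claim : ∀ F : Finset Nat.Primes, ∀ ω : Nat.Primes → ℂ, ω ∈ PD → (∀ p, p ∉ F → ‖ω p‖ = 1) → R ω = 0 := by
    intro F
    induction F using Finset.induction_on with
    | empty =>
      intro ω _ h1
      exact h ω (fun p => h1 p (by simp)) w hw
    | insert p0 F hp0 ih =>
      intro ω hω h1
      have hd : DiffContOnCl ℂ (fun u => R (Function.update ω p0 u)) (ball (0 : ℂ) 1) := by
        refine ⟨TorP.eval_diffOn P _ _ fun i => (hT i).2.2.2 ω hω w hw p0, ?_⟩
        rw [closure_ball (0 : ℂ) one_ne_zero]
        refine hcont.comp (f := fun u : ℂ => Function.update ω p0 u) ?_ ?_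
        · exact ((continuous_const (y := ω)).update p0 continuous_id).continuousOn
        · intro u hu
          exact hup ω p0 u hω (by simpa using hu)
      have h2 : ∀ z ∈ frontier (ball (0 : ℂ) 1), ‖(fun u => R (Function.update ω p0 u)) z‖ ≤ 0 := by
        intro z hz
        rw [frontier_ball (0 : ℂ) one_ne_zero] at hz
        have hz1 : ‖z‖ = 1 := by simpa using hz
        have : R (Function.update ω p0 z) = 0 := by
          refine ih _ (hup ω p0 z hω hz1.le) fun p hp => ?_
          by_cases hpp : p = p0
          · subst hpp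
            rw [Function.update_self]
            exact hz1
          · rw [Function.update_of_ne hpp]
            exact h1 p (by simp [hpp, hp])
        simp [this]
      have h3 := Complex.norm_le_of_forall_mem_frontier_norm_le isBounded_ball hd h2
        (z := ω p0) (by
          rw [closure_ball (0 : ℂ) one_ne_zero]
          simpa using hω p0)
      simp only [Function.update_eq_self] at h3
      exact norm_le_zero_iff.1 h3
  -- the limit
  set Ω : Finset Nat.Primes → (Nat.Primes → ℂ) := fun F p => if p ∈ F then ω p else 1 with hΩ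
  have hΩm : ∀ F, Ω F ∈ PD := by
    intro F p
    simp only [hΩ]
    split_ifs
    · exact hω p
    · simp
  have hΩ0 : ∀ F, R (Ω F) = 0 := fun F => claim F (Ω F) (hΩm F) fun p hp => by simp [hΩ, hp]
  have hΩt : Tendsto Ω atTop (𝓝[PD] ω) := by
    refine tendsto_nhdsWithin_iff.2 ⟨?_, Eventually.of_forall hΩm⟩
    rw [tendsto_pi_nhds]
    intro p
    refine tendsto_const_nhds.congr' ?_
    filter_upwards [eventually_ge_atTop ({p} : Finset Nat.Primes)] with F hF
    have : p ∈ F := hF (by simp)
    simp [hΩ, this]
  have h4 := (hcont ω hω).tendsto.comp hΩt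
  have h5 : Tendsto (R ∘ Ω) atTop (𝓝 0) := by
    refine tendsto_const_nhds.congr fun F => ?_
    simp [hΩ0 F]
  exact tendsto_nhds_unique h4 h5

end Pool.Agent.W186.AI.PolP
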