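import Pool.Agent.W186.AI.Spec

set_option autoImplicit false

/-!
# The logarithm of zeta
-/

namespace Pool.Agent.W186.AI.ZetP

open Complex Filter Topology Metric Set
open Pool.Agent.W186.AI

lemma pn (p : Nat.Primes) (s : ℂ) : ‖((p : ℕ) : ℂ) ^ (-s)‖ = ((p : ℕ) : ℝ) ^ (-s.re) := by
  rw [Complex.norm_natCast_cpow_of_pos p.2.pos]
  simp

lemma p2 (p : Nat.Primes) : (2 : ℝ) ≤ ((p : ℕ) : ℝ) := by exact_mod_cast p.2.two_le

lemma half {p : Nat.Primes} {s : ℂ} (hs : 1 < s.re) : ‖((p : ℕ) : ℂ) ^ (-s)‖ ≤ 1 / 2 := by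
  rw [pn]
  calc ((p : ℕ) : ℝ) ^ (-s.re) ≤ ((p : ℕ) : ℝ) ^ (-1 : ℝ) :=
        Real.rpow_le_rpow_of_exponent_le (by have := p2 p; linarith) (by linarith)
    _ = 1 / ((p : ℕ) : ℝ) := by rw [Real.rpow_neg_one, one_div]
    _ ≤ 1 / 2 := one_div_le_one_div_of_le two_pos (p2 p)

lemma term {p : Nat.Primes} {s : ℂ} (hs : 1 < s.re) :
    ‖log (1 - ((p : ℕ) : ℂ) ^ (-s))‖ ≤ 2 * ((p : ℕ) : ℝ) ^ (-s.re) := by
  have h1 := half (p := p) hs
  have h2 := Complex.norm_log_one_add_half_le_self (z := -((p : ℕ) : ℂ) ^ (-s)) (by rw [norm_neg]; exact h1)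
  rw [norm_neg, ← sub_eq_add_neg] at h2
  rw [← pn]
  refine h2.trans ?_
  have := norm_nonneg (((p : ℕ) : ℂ) ^ (-s))
  linarith

lemma summ {x : ℝ} (hx : 1 < x) : Summable (fun p : Nat.Primes => 2 * ((p : ℕ) : ℝ) ^ (-x)) := by
  refine Summable.mul_left 2 ?_
  exact Nat.Primes.summable_rpow.2 (by linarith)

lemma slit {p : Nat.Primes} {s : ℂ} (hs : 1 < s.re) : (1 - ((p : ℕ) : ℂ) ^ (-s)) ∈ slitPlane := by
  left
  have h1 := half (p := p) hs
  have h2 := (Complex.re_le_norm (((p : ℕ) : ℂ) ^ (-s))).trans h1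
  rw [Complex.sub_re, Complex.one_re]
  linarith

theorem main : S_ZET := by
  have hsum : ∀ s : ℂ, 1 < s.re → Summable (fun p : Nat.Primes => log (1 - ((p : ℕ) : ℂ) ^ (-s))) := by
    intro s hs
    exact Summable.of_norm_bounded (summ hs) fun p => term hs
  refine ⟨?_, ?_, ?_, ?_⟩
  · intro s hs
    have hs1 : 1 < s.re := hs
    set x : ℝ := (1 + s.re) / 2 with hx
    have hx1 : 1 < x := by rw [hx]; linarith
    have hxs : x < s.re := by rw [hx]; linarith
    have hU : IsOpen {z : ℂ | x < z.re} := isOpen_lt continuous_const continuous_re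
    have hd : DifferentiableOn ℂ (fun s : ℂ => ∑' p : Nat.Primes, log (1 - ((p : ℕ) : ℂ) ^ (-s))) {z : ℂ | x < z.re} := by
      refine differentiableOn_tsum_of_summable_norm (summ hx1) (fun p => ?_) hU (fun p w hw => ?_)
      · intro z hz
        have hz1 : 1 < z.re := hx1.trans hz
        refine (DifferentiableAt.clog (f := fun s : ℂ => 1 - ((p : ℕ) : ℂ) ^ (-s)) ?_
          (slit hz1)).differentiableWithinAt
        refine (differentiableAt_const _).sub ?_
        refine DifferentiableAt.const_cpow (by fun_prop) (Or.inl ?_)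
        exact_mod_cast p.2.ne_zero
      · have hw1 : x < w.re := hw
        refine (term (hx1.trans hw1)).trans ?_
        refine mul_le_mul_of_nonneg_left ?_ two_pos.le
        exact Real.rpow_le_rpow_of_exponent_le (by have := p2 p; linarith) (by linarith)
    exact ((hd.neg s hxs).differentiableAt (hU.mem_nhds hxs)).differentiableWithinAt
  · intro s hs
    have h := riemannZeta_eulerProduct_exp_log hs
    rw [← h]
    congr 1
    unfold Z
    rw [← tsum_neg]
  · intro s hs
    unfold Z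
    rw [map_neg, Complex.conj_tsum]
    congr 1
    refine tsum_congr fun p => ?_
    have h1 := slit (p := p) hs
    have hne : (1 - ((p : ℕ) : ℂ) ^ (-s)).arg ≠ Real.pi := Complex.mem_slitPlane_iff_arg.1 h1 |>.1
    rw [← Complex.log_conj _ hne]
    congr 1
    rw [map_sub, map_one]
    congr 1
    rw [← map_neg, Complex.cpow_conj _ _ (by rw [Complex.natCast_arg]; exact Real.pi_pos.ne), Complex.conj_natCast]
  · intro x hx
    refine ⟨∑' p : Nat.Primes, 2 * ((p : ℕ) : ℝ) ^ (-x), fun s hs => ?_⟩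
    unfold Z
    rw [norm_neg]
    refine tsum_of_norm_bounded (summ hx).hasSum fun p => ?_
    refine (term (hx.trans_le hs)).trans ?_
    refine mul_le_mul_of_nonneg_left ?_ two_pos.le
    exact Real.rpow_le_rpow_of_exponent_le (by have := p2 p; linarith) (by linarith)

end Pool.Agent.W186.AI.ZetP
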