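import Pool.Agent.W186.AI.Hgd
import Pool.Agent.W186.AI.Ext
import Pool.Agent.W186.AI.Cpx
import Pool.Agent.W186.AI.Pol
import Pool.Agent.W186.AI.Cor
import Pool.Agent.W186.AI.Cnt
import Pool.Agent.W186.AI.Zet
import Pool.Agent.W671.AI.FPL
import Pool.Agent.W469.AI.FPH
import Pool.Agent.W402.AI.FPC
import Pool.Agent.W918.AI.GAM
import Pool.Agent.W571.AI.GD1
import Pool.Agent.W908.AI.GD2
import Pool.Agent.W566.AI.ZS
import Pool.Agent.W460.AI.SGD
import Pool.Agent.W53.AI.SUP
import Pool.Agent.W605.AI.LAM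
import Pool.Agent.W702.AI.KRO
import Pool.Agent.W687.AI.LEA
import Pool.Agent.W661.AI.TTH
import Pool.Agent.W879.AI.TRG
import Pool.Agent.W862.AI.OPN
import Pool.Agent.W141.AI.ENU
import Pool.Agent.W571.AI.RAN
import Pool.Agent.W143.AI.MON

set_option autoImplicit false

/-!
# Assembly
-/

namespace Pool.Agent.W186.AI

theorem fpl : S_FPL := W671.AI.FPL.main
theorem fph : S_FPH := W469.AI.FPH.main fpl
theorem fpc : S_FPC := W402.AI.FPC.main fpl
theorem gam : S_GAM := W918.AI.GAM.main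
theorem gd1 : S_GD1 := W571.AI.GD1.main
theorem gd2 : S_GD2 := W908.AI.GD2.main
theorem zet : S_ZET := ZetP.main
theorem zs : S_ZS := W566.AI.ZS.main
theorem sgd : S_SGD := W460.AI.SGD.main
theorem sup1 : S_SUP := W53.AI.SUP.main
theorem lam : S_LAM := W605.AI.LAM.main gam gd1
theorem kro : S_KRO := W702.AI.KRO.main
theorem lea : S_LEA := W687.AI.main
theorem tth : S_TTH := W661.AI.TTH.main fpl fph fpc sgd sup1
theorem trg : S_TRG := W879.AI.TRG.main
theorem opn : S_OPN := W862.AI.OPN.main tth trg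
theorem mon : S_MON := W143.AI.MON.main gam zet
theorem enu : S_ENU := W141.AI.ENU.main gam gd1 zet mon
theorem ran : S_RAN := W571.AI.RAN.main gam zet mon
theorem hgd : S_HGD := HgdP.main gam gd2 zet zs sgd
theorem ext1 : S_EXT := ExtP.main fpl gam zet mon lam hgd
theorem cpx : S_CPX := CpxP.main fpl fph lam hgd ext1
theorem tor : S_TOR := TorP.main fpl lam hgd sgd cpx kro lea tth
theorem pol : S_POL := PolP.main tth
theorem cor1 : S_COR := cor tor pol opn

theorem infinite_zeros (a : ℝ) (ha : 1 / 2 < a) : {t : ℝ | 0 < t ∧ X a t = 0}.Infinite :=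
  CntP.infinite_zeros enu a ha

theorem main (F : Type) [Field F] [Countable F] [Algebra F ℝ] :
    ∃ B : Set ℝ, B.Countable ∧ ∀ a : ℝ, 1 / 2 < a → a ∉ B →
      AlgebraicIndependent F (fun t : {t : ℝ // 0 < t ∧ X a t = 0} => (t : ℝ)) :=
  CntP.main enu ran cor1 F

end Pool.Agent.W186.AI
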