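import Pool.Agent.W186.AI.Spec

set_option autoImplicit false

/-!
# Facts on `Hh`
-/

namespace Pool.Agent.W186.AI.HgdP

open Complex Filter Topology Metric Set
open Pool.Agent.W186.AI

/-- The error term. -/
noncomputable def EE (c t : ℂ) : ℂ := (g (c + I * t) - g (c - I * t)) / (2 * I) - t * deriv g c

lemma isOpen_re (x : ℝ) : IsOpen {s : ℂ | x < s.re} := isOpen_lt continuous_const continuous_re

lemma mem_re {c s : ℂ} (hc : 3 ≤ c.re) (hs : ‖s - c‖ < 1) : 2 ≤ s.re := by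
  have h1 : |(s - c).re| ≤ ‖s - c‖ := Complex.abs_re_le_norm _
  rw [Complex.sub_re] at h1
  have := (abs_le.1 (h1.trans hs.le)).1
  linarith

lemma EE_bd (hg : DifferentiableOn ℂ g {s : ℂ | 1 < s.re}) {c : ℂ} (hc : 3 ≤ c.re) {K : ℝ} (hK : 0 ≤ K)
    (hb : ∀ s : ℂ, ‖s - c‖ < 1 → ‖deriv (deriv g) s‖ ≤ K) :
    Good K (EE c) := by
  have hdg : DifferentiableOn ℂ (deriv g) {s : ℂ | 1 < s.re} := hg.deriv (isOpen_re 1)
  have hin : ∀ s : ℂ, ‖s - c‖ < 1 → s ∈ {s : ℂ | 1 < s.re} := fun s hs => by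
    have := mem_re hc hs
    simp only [mem_setOf_eq]
    linarith
  have hcc : c ∈ ball c 1 := mem_ball_self one_pos
  have hmv : ∀ s : ℂ, ‖s - c‖ < 1 → ‖deriv g s - deriv g c‖ ≤ K * ‖s - c‖ := by
    intro s hs
    refine (convex_ball c (1 : ℝ)).norm_image_sub_le_of_norm_deriv_le (𝕜 := ℂ) (f := deriv g)
      (fun z hz => ?_) (fun z hz => ?_) hcc (by rwa [mem_ball_iff_norm])
    · rw [mem_ball_iff_norm] at hz
      exact (hdg z (hin z hz)).differentiableAt ((isOpen_re 1).mem_nhds (hin z hz))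
    · rw [mem_ball_iff_norm] at hz
      exact hb z hz
  have hder : ∀ t ∈ ball (0 : ℂ) 1, HasDerivAt (EE c)
      ((deriv g (c + I * t) - deriv g c) / 2 + (deriv g (c - I * t) - deriv g c) / 2) t := by
    intro t ht
    rw [mem_ball_zero_iff] at ht
    have h1 : ‖(c + I * t) - c‖ < 1 := by
      rw [add_sub_cancel_left, norm_mul, Complex.norm_I, one_mul]; exact ht
    have h2 : ‖(c - I * t) - c‖ < 1 := by
      rw [sub_sub_cancel_left, norm_neg, norm_mul, Complex.norm_I, one_mul]; exact ht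
    have d1 : HasDerivAt g (deriv g (c + I * t)) (c + I * t) :=
      ((hg _ (hin _ h1)).differentiableAt ((isOpen_re 1).mem_nhds (hin _ h1))).hasDerivAt
    have d2 : HasDerivAt g (deriv g (c - I * t)) (c - I * t) :=
      ((hg _ (hin _ h2)).differentiableAt ((isOpen_re 1).mem_nhds (hin _ h2))).hasDerivAt
    have a1 : HasDerivAt (fun t : ℂ => c + I * t) I t := by
      simpa using ((hasDerivAt_id t).const_mul I).const_add c
    have a2 : HasDerivAt (fun t : ℂ => c - I * t) (-I) t := by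
      simpa using ((hasDerivAt_id t).const_mul I).const_sub c
    have e1 := d1.comp t a1
    have e2 := d2.comp t a2
    have e3 := ((e1.sub e2).div_const (2 * I)).sub ((hasDerivAt_id t).mul_const (deriv g c))
    refine e3.congr_deriv ?_
    have hI : (2 * I : ℂ) ≠ 0 := by simp
    field_simp
    ring
  have hbd : ∀ t ∈ ball (0 : ℂ) 1, ‖deriv (EE c) t‖ ≤ K := by
    intro t ht
    rw [(hder t ht).deriv]
    rw [mem_ball_zero_iff] at ht
    have h1 : ‖(c + I * t) - c‖ = ‖t‖ := by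
      rw [add_sub_cancel_left, norm_mul, Complex.norm_I, one_mul]
    have h2 : ‖(c - I * t) - c‖ = ‖t‖ := by
      rw [sub_sub_cancel_left, norm_neg, norm_mul, Complex.norm_I, one_mul]
    have b1 := hmv _ (h1.trans_lt ht)
    have b2 := hmv _ (h2.trans_lt ht)
    rw [h1] at b1
    rw [h2] at b2
    refine (norm_add_le _ _).trans ?_
    rw [norm_div, norm_div]
    have n2 : ‖(2 : ℂ)‖ = 2 := by simp
    rw [n2]
    have : K * ‖t‖ ≤ K := mul_le_of_le_one_right hK ht.le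
    linarith
  have hlip : ∀ t ∈ ball (0 : ℂ) 1, ∀ u ∈ ball (0 : ℂ) 1, ‖EE c t - EE c u‖ ≤ K * ‖t - u‖ := by
    intro t ht u hu
    exact (convex_ball (0 : ℂ) (1 : ℝ)).norm_image_sub_le_of_norm_deriv_le (𝕜 := ℂ)
      (fun z hz => (hder z hz).differentiableAt) hbd hu ht
  refine ⟨fun t ht => ?_, hlip⟩
  have h0 : EE c 0 = 0 := by simp [EE]
  have h1 := hlip t ht 0 (mem_ball_self one_pos)
  rw [h0, sub_zero, sub_zero] at h1
  rw [mem_ball_zero_iff] at ht
  exact h1.trans (mul_le_of_le_one_right hK ht.le)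

lemma Hh_eq (hs : S_ZS) {x Y : ℝ} (hx : 10 ≤ x) {t : ℂ} (ht : ‖t‖ < 1) :
    Hh ((x : ℂ) + I * (Y : ℂ)) t = EE (1 / 2 + ((x : ℂ) + I * (Y : ℂ))) t - S (1 / 2 + x) (ph Y) t := by
  have h := hs x Y t hx ht
  have e : Hh ((x : ℂ) + I * (Y : ℂ)) t = EE (1 / 2 + ((x : ℂ) + I * (Y : ℂ))) t +
      (Z (1 / 2 + ((x : ℂ) + I * (Y : ℂ)) + I * t) - Z (1 / 2 + ((x : ℂ) + I * (Y : ℂ)) - I * t)) / (2 * I) := by
    unfold Hh GG EE La ell
    ring
  rw [e, h]
  ring

lemma ph_norm (Y : ℝ) (p : Nat.Primes) : ‖ph Y p‖ = 1 := by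
  unfold ph
  rw [Complex.norm_natCast_cpow_of_pos p.2.pos]
  simp

theorem main (hg : S_GAM) (h2 : S_GD2) (hz : S_ZET) (hs : S_ZS) (hS : S_SGD) : S_HGD := by
  obtain ⟨hgd, -, -⟩ := hg
  obtain ⟨C, hC⟩ := h2
  obtain ⟨hzd, -⟩ := hz
  have hC0 : 0 ≤ C := (norm_nonneg _).trans (hC 2 (by simp)).1
  have hre : ∀ x Y : ℝ, (1 / 2 + ((x : ℂ) + I * (Y : ℂ))).re = 1 / 2 + x := by
    intro x Y
    simp
  have him : ∀ x Y : ℝ, (1 / 2 + ((x : ℂ) + I * (Y : ℂ))).im = Y := by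
    intro x Y
    simp
  refine ⟨2 * C + 2, by linarith, ?_, ?_, ?_⟩
  · intro a ha
    have hae : a = ((a.re : ℝ) : ℂ) + I * ((a.im : ℝ) : ℂ) := by
      rw [mul_comm]; exact (Complex.re_add_im a).symm
    have hE : Good C (EE (1 / 2 + (((a.re : ℝ) : ℂ) + I * ((a.im : ℝ) : ℂ)))) := by
      refine EE_bd hgd (by rw [hre]; linarith) hC0 fun s hs => ?_
      exact (hC s (mem_re (by rw [hre]; linarith) hs)).1
    have hSg := ((hS (1 / 2 + a.re) (by linarith)).1 (ph a.im) (fun p => (ph_norm _ p).le)).1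
    rw [hae]
    refine ⟨fun t ht => ?_, fun t ht u hu => ?_⟩
    · rw [Hh_eq hs ha (by simpa using ht)]
      refine (norm_sub_le _ _).trans ?_
      have e1 := hE.1 t ht
      have e2 := hSg.1 t ht
      linarith
    · rw [Hh_eq hs ha (by simpa using ht), Hh_eq hs ha (by simpa using hu), sub_sub_sub_comm]
      refine (norm_sub_le _ _).trans ?_
      have e1 := hE.2 t ht u hu
      have e2 := hSg.2 t ht u hu
      have : 0 ≤ ‖t - u‖ := norm_nonneg _
      nlinarith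
  · have hell : DifferentiableOn ℂ ell {s : ℂ | 1 < s.re} := hgd.add hzd
    have hdg : DifferentiableOn ℂ (deriv g) {s : ℂ | 1 < s.re} := hgd.deriv (isOpen_re 1)
    have hm : ∀ q ∈ ({a : ℂ | 10 < a.re} ×ˢ ball (0 : ℂ) 1), 1 < (1 / 2 + q.1 + I * q.2).re ∧
        1 < (1 / 2 + q.1 - I * q.2).re ∧ 1 < (1 / 2 + q.1).re := by
      rintro ⟨a, t⟩ ⟨ha, ht⟩
      simp only [mem_setOf_eq] at ha
      rw [mem_ball_zero_iff] at ht
      have h3 : |t.im| ≤ ‖t‖ := Complex.abs_im_le_norm t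
      have h4 := abs_le.1 (h3.trans ht.le)
      refine ⟨?_, ?_, ?_⟩
      · simp; linarith [h4.1, h4.2]
      · simp; linarith [h4.1, h4.2]
      · simp; linarith
    have a1 : DifferentiableOn ℂ (fun q : ℂ × ℂ => ell (1 / 2 + q.1 + I * q.2))
        ({a : ℂ | 10 < a.re} ×ˢ ball (0 : ℂ) 1) :=
      hell.comp (f := fun q : ℂ × ℂ => 1 / 2 + q.1 + I * q.2) (by fun_prop) (fun q hq => (hm q hq).1)
    have a2 : DifferentiableOn ℂ (fun q : ℂ × ℂ => ell (1 / 2 + q.1 - I * q.2))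
        ({a : ℂ | 10 < a.re} ×ˢ ball (0 : ℂ) 1) :=
      hell.comp (f := fun q : ℂ × ℂ => 1 / 2 + q.1 - I * q.2) (by fun_prop) (fun q hq => (hm q hq).2.1)
    have a3 : DifferentiableOn ℂ (fun q : ℂ × ℂ => deriv g (1 / 2 + q.1))
        ({a : ℂ | 10 < a.re} ×ˢ ball (0 : ℂ) 1) :=
      hdg.comp (f := fun q : ℂ × ℂ => 1 / 2 + q.1) (by fun_prop) (fun q hq => (hm q hq).2.2)
    unfold Hh GG La
    simp only [div_eq_mul_inv] at *
    exact ((a1.sub a2).mul_const _).sub ((by fun_prop : DifferentiableOn ℂ (fun q : ℂ × ℂ => q.2) _).mul a3)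
  · intro x Y hx hY t ht
    rw [Hh_eq hs hx (by simpa using ht), sub_add_cancel]
    have hYp : 0 < Y := by linarith
    have hE : Good (2 * C / Y) (EE (1 / 2 + ((x : ℂ) + I * (Y : ℂ)))) := by
      refine EE_bd hgd (by rw [hre]; linarith) (by positivity) fun s hs' => ?_
      have hsr := mem_re (by rw [hre]; linarith) hs'
      obtain ⟨b1, b2⟩ := hC s hsr
      by_cases hY2 : 2 ≤ Y
      · have h5 : |(s - (1 / 2 + ((x : ℂ) + I * (Y : ℂ)))).im| < 1 := (Complex.abs_im_le_norm _).trans_lt hs'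
        rw [Complex.sub_im, him] at h5
        have h6 := (abs_lt.1 h5).1
        have h7 : Y / 2 ≤ |s.im| := by
          refine le_trans ?_ (le_abs_self _)
          linarith
        rw [le_div_iff₀ hYp]
        have h8 : ‖deriv (deriv g) s‖ * (Y / 2) ≤ C := (mul_le_mul_of_nonneg_left h7 (norm_nonneg _)).trans b2
        linarith
      · push Not at hY2
        refine b1.trans ?_
        rw [le_div_iff₀ hYp]
        nlinarith
    refine (hE.1 t ht).trans ?_
    exact div_le_div_of_nonneg_right (by linarith) hYp.le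

end Pool.Agent.W186.AI.HgdP
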