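import Pool.Agent.W186.AI.Spec

set_option autoImplicit false

/-!
# The identity on the torus
-/

namespace Pool.Agent.W186.AI.TorP

open Complex Filter Topology Metric Set
open Pool.Agent.W186.AI

lemma eval_diffOn {m : ℕ} (P : MvPolynomial (Fin m) ℂ) (F : Fin m → ℂ → ℂ) (s : Set ℂ)
    (hF : ∀ i, DifferentiableOn ℂ (F i) s) :
    DifferentiableOn ℂ (fun w => MvPolynomial.eval (fun i => F i w) P) s := by
  induction P using MvPolynomial.induction_on with
  | C a => simpa using differentiableOn_const a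
  | add p q hp hq =>
    simp only [map_add]
    exact hp.add hq
  | mul_X p i hp =>
    simp only [map_mul, MvPolynomial.eval_X]
    exact hp.mul (hF i)

lemma eval_bdd {m : ℕ} (P : MvPolynomial (Fin m) ℂ) : ∃ B : ℝ, 0 ≤ B ∧ ∀ z : Fin m → ℂ, (∀ i, ‖z i‖ ≤ 1 / 2) →
    ‖MvPolynomial.eval z P‖ ≤ B := by
  induction P using MvPolynomial.induction_on with
  | C a => exact ⟨‖a‖, norm_nonneg _, fun z _ => by simp⟩
  | add p q hp hq =>
    obtain ⟨B1, h1, h1'⟩ := hp
    obtain ⟨B2, h2, h2'⟩ := hq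
    refine ⟨B1 + B2, by positivity, fun z hz => ?_⟩
    rw [map_add]
    exact (norm_add_le _ _).trans (add_le_add (h1' z hz) (h2' z hz))
  | mul_X p i hp =>
    obtain ⟨B1, h1, h1'⟩ := hp
    refine ⟨B1, h1, fun z hz => ?_⟩
    rw [map_mul, MvPolynomial.eval_X, norm_mul]
    calc ‖MvPolynomial.eval z p‖ * ‖z i‖ ≤ B1 * 1 :=
          mul_le_mul (h1' z hz) ((hz i).trans (by norm_num)) (norm_nonneg _) h1
      _ = B1 := mul_one _

lemma eval_lip {m : ℕ} (P : MvPolynomial (Fin m) ℂ) : ∃ L : ℝ, 0 ≤ L ∧ ∀ (z z' : Fin m → ℂ) (e : ℝ),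
    (∀ i, ‖z i‖ ≤ 1 / 2) → (∀ i, ‖z' i‖ ≤ 1 / 2) → 0 ≤ e → (∀ i, ‖z i - z' i‖ ≤ e) →
    ‖MvPolynomial.eval z P - MvPolynomial.eval z' P‖ ≤ L * e := by
  induction P using MvPolynomial.induction_on with
  | C a => exact ⟨0, le_rfl, fun z z' e _ _ _ _ => by simp⟩
  | add p q hp hq =>
    obtain ⟨L1, h1, h1'⟩ := hp
    obtain ⟨L2, h2, h2'⟩ := hq
    refine ⟨L1 + L2, by positivity, fun z z' e hz hz' he hd => ?_⟩
    rw [map_add, map_add, add_sub_add_comm, add_mul]
    exact (norm_add_le _ _).trans (add_le_add (h1' z z' e hz hz' he hd) (h2' z z' e hz hz' he hd))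
  | mul_X p i hp =>
    obtain ⟨L1, h1, h1'⟩ := hp
    obtain ⟨B, hB, hB'⟩ := eval_bdd p
    refine ⟨L1 + B, by positivity, fun z z' e hz hz' he hd => ?_⟩
    rw [map_mul, map_mul, MvPolynomial.eval_X, MvPolynomial.eval_X]
    have e1 : MvPolynomial.eval z p * z i - MvPolynomial.eval z' p * z' i =
        (MvPolynomial.eval z p - MvPolynomial.eval z' p) * z i + MvPolynomial.eval z' p * (z i - z' i) := by
      ring
    rw [e1, add_mul]
    refine (norm_add_le _ _).trans (add_le_add ?_ ?_)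
    · rw [norm_mul]
      calc _ ≤ (L1 * e) * 1 := mul_le_mul (h1' z z' e hz hz' he hd) ((hz i).trans (by norm_num))
            (norm_nonneg _) (by positivity)
        _ = L1 * e := mul_one _
    · rw [norm_mul]
      exact mul_le_mul (hB' z' hz') (hd i) (norm_nonneg _) hB

theorem main (hf : S_FPL) (hl : S_LAM) (hH : S_HGD) (hS : S_SGD) (hc : S_CPX) (hk : S_KRO) (hL : S_LEA)
    (ht : S_TTH) : S_TOR := by
  intro τ hτ m n P h0
  obtain ⟨x0, hx0, hcx⟩ := hc τ hτ m n P h0
  obtain ⟨C, hC1, hGood, -, hcmp⟩ := hH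
  obtain ⟨-, -, hl3, hl4⟩ := hl
  set x : ℝ := x0 + 1 with hx
  have hx10 : 10 ≤ x := by linarith
  have hyn : ∀ k : ℕ, 0 ≤ yy k := fun k => by unfold yy; positivity
  set Y0 : ℝ := ∑ i, yy (n i) with hY0
  have hY0n : 0 ≤ Y0 := Finset.sum_nonneg fun i _ => hyn _
  have hyY : ∀ i, yy (n i) ≤ Y0 := fun i =>
    Finset.single_le_sum (f := fun i => yy (n i)) (fun j _ => hyn _) (Finset.mem_univ i)
  set r : ℝ := 1 / (2 * (Y0 + 1)) with hr
  have hr0 : 0 < r := by positivity
  have hri : ∀ i, r * (2 * (yy (n i) + 1)) ≤ 1 := by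
    intro i
    rw [hr, div_mul_eq_mul_div, one_mul, div_le_one (by positivity)]
    have := hyY i
    linarith
  have hσ : 10 ≤ 1 / 2 + x := by linarith
  refine ⟨1 / 2 + x, r, hσ, hr0, hri, ?_⟩
  have hT := fun i => ht (1 / 2 + x) (yy (n i)) r hσ (hyn _) hr0 (hri i)
  obtain ⟨B, hB, hB'⟩ := eval_bdd P
  obtain ⟨L, hL0, hLip⟩ := eval_lip P
  have hcl : ∀ ω : Nat.Primes → ℂ, (∀ p, ‖ω p‖ = 1) → ∀ p, ‖ω p‖ ≤ 1 := fun ω h p => (h p).le
  have key := hL (Nat.Primes → ℂ) {ω | ∀ p, ‖ω p‖ = 1} r B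
    (fun w ω => MvPolynomial.eval (fun i => TT (1 / 2 + x) (yy (n i)) w ω) P) hr0
    (fun ω hω => eval_diffOn P _ _ fun i => (hT i).2.1 ω (hcl ω hω))
    (fun ω hω w hw => hB' _ fun i => ((hT i).1 ω (hcl ω hω) w hw).1)
    (by
      refine (MvPolynomial.continuous_eval P).comp_continuousOn (continuousOn_pi.2 fun i => ?_)
      exact (hT i).2.2.1.mono (prod_mono le_rfl fun ω hω => hcl ω hω))
    ?_
  · intro ω hω w hw
    exact key ω hω w hw
  · intro ω0 hω0
    obtain ⟨Y, hY, hYω⟩ := hk ω0 hω0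
    set M : ℝ := C + Y0 + 1 with hM
    have hM1 : 1 ≤ M := by linarith
    have hMp : 0 < M := by linarith
    have hLa : Tendsto (fun k => ‖La ((x : ℂ) + I * (Y k : ℂ))‖) atTop atTop := (hl3 x hx10).comp hY
    have hev : ∀ᶠ k in atTop, 1 ≤ Y k ∧ 2 * M + 2 * (Y0 + 1) + 1 ≤ ‖La ((x : ℂ) + I * (Y k : ℂ))‖ :=
      (hY.eventually_ge_atTop 1).and (hLa.eventually_ge_atTop _)
    obtain ⟨N, hN⟩ := eventually_atTop.1 hev
    set a : ℕ → ℂ := fun k => (x : ℂ) + I * (Y (k + N) : ℂ) with ha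
    have haN : ∀ k, 1 ≤ Y (k + N) ∧ 2 * M + 2 * (Y0 + 1) + 1 ≤ ‖La (a k)‖ := fun k => hN (k + N) (by omega)
    have hLp : ∀ k, 0 < ‖La (a k)‖ := fun k => by have := (haN k).2; linarith
    have hwn : ∀ k, ‖(La (a k))⁻¹‖ = 1 / ‖La (a k)‖ := fun k => by rw [norm_inv, one_div]
    have hwM : ∀ k, ‖(La (a k))⁻¹‖ * (2 * M) ≤ 1 := by
      intro k
      rw [hwn, div_mul_eq_mul_div, one_mul, div_le_one (hLp k)]
      have := (haN k).2
      linarith
    have hwr : ∀ k, (La (a k))⁻¹ ∈ ball (0 : ℂ) r := by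
      intro k
      rw [mem_ball_zero_iff, hwn, hr]
      refine one_div_lt_one_div_of_lt (by positivity) ?_
      have := (haN k).2
      linarith
    have hare : ∀ k, (a k).re = x := fun k => by simp [ha]
    have hNt : Tendsto (fun k : ℕ => k + N) atTop atTop := tendsto_add_atTop_nat N
    have hphn : ∀ k (p : Nat.Primes), ‖ph (Y (k + N)) p‖ = 1 := by
      intro k p
      unfold ph
      rw [Complex.norm_natCast_cpow_of_pos p.2.pos]
      simp
    have hLaT : Tendsto (fun k => ‖La (a k)‖) atTop atTop := hLa.comp hNt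
    refine ⟨fun k => (La (a k))⁻¹, fun k => ph (Y (k + N)), ?_, ?_, hYω.comp hNt, ?_⟩
    · rw [tendsto_zero_iff_norm_tendsto_zero]
      simp only [norm_inv]
      exact tendsto_inv_atTop_zero.comp hLaT
    · intro k
      refine ⟨inv_ne_zero (norm_pos_iff.1 (hLp k)), fun p => hphn k p⟩
    · intro j
      rw [tendsto_zero_iff_norm_tendsto_zero]
      have hbd : ∀ k, ‖MvPolynomial.eval (fun i => TT (1 / 2 + x) (yy (n i)) (La (a k))⁻¹ (ph (Y (k + N)))) P /
          ((La (a k))⁻¹) ^ j‖ ≤ L * C * (‖La (a k)‖ ^ j / Y (k + N)) := by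
        intro k
        have hY1 : 0 < Y (k + N) := by have := (haN k).1; linarith
        have hz := hcx (a k) (by rw [hare]; linarith)
        have hGM : ∀ i, Good M (fun t => ((yy (n i) : ℝ) : ℂ) - Hh (a k) t) := by
          intro i
          obtain ⟨g1, g2⟩ := hGood (a k) (by rw [hare]; exact hx10)
          refine ⟨fun t htt => ?_, fun t htt u huu => ?_⟩
          · refine (norm_sub_le _ _).trans ?_
            rw [Complex.norm_real, Real.norm_of_nonneg (hyn _)]
            have := g1 t htt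
            have := hyY i
            linarith
          · have e1 : ((yy (n i) : ℝ) : ℂ) - Hh (a k) t - (((yy (n i) : ℝ) : ℂ) - Hh (a k) u) =
              -(Hh (a k) t - Hh (a k) u) := by ring
            rw [e1, norm_neg]
            refine (g2 t htt u huu).trans (mul_le_mul_of_nonneg_right ?_ (norm_nonneg _))
            linarith
        have hGS : ∀ i, Good M (fun t => ((yy (n i) : ℝ) : ℂ) + S (1 / 2 + x) (ph (Y (k + N))) t) := by
          intro i
          obtain ⟨g1, g2⟩ := ((hS (1 / 2 + x) hσ).1 (ph (Y (k + N))) (fun p => (hphn k p).le)).1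
          refine ⟨fun t htt => ?_, fun t htt u huu => ?_⟩
          · refine (norm_add_le _ _).trans ?_
            rw [Complex.norm_real, Real.norm_of_nonneg (hyn _)]
            have := g1 t htt
            have := hyY i
            linarith
          · have e1 : ((yy (n i) : ℝ) : ℂ) + S (1 / 2 + x) (ph (Y (k + N))) t -
                (((yy (n i) : ℝ) : ℂ) + S (1 / 2 + x) (ph (Y (k + N))) u) =
              S (1 / 2 + x) (ph (Y (k + N))) t - S (1 / 2 + x) (ph (Y (k + N))) u := by ring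
            rw [e1]
            refine (g2 t htt u huu).trans (mul_le_mul_of_nonneg_right ?_ (norm_nonneg _))
            linarith
        have hdiff : ∀ i, ‖fp (fun t => ((yy (n i) : ℝ) : ℂ) - Hh (a k) t) (La (a k))⁻¹ -
            TT (1 / 2 + x) (yy (n i)) (La (a k))⁻¹ (ph (Y (k + N)))‖ ≤ C / Y (k + N) := by
          intro i
          refine (hf M _ _ hM1 (hGM i) (hwM k)).2.2.2.2 _ _ (hGS i) ?_
          intro t htt
          have e1 : ((yy (n i) : ℝ) : ℂ) - Hh (a k) t -
              (((yy (n i) : ℝ) : ℂ) + S (1 / 2 + x) (ph (Y (k + N))) t) =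
              -(Hh (a k) t + S (1 / 2 + x) (ph (Y (k + N))) t) := by ring
          rw [e1, norm_neg]
          exact hcmp x (Y (k + N)) hx10 (haN k).1 t htt
        have hval : ‖MvPolynomial.eval (fun i => TT (1 / 2 + x) (yy (n i)) (La (a k))⁻¹ (ph (Y (k + N)))) P‖ ≤
            L * (C / Y (k + N)) := by
          have h2 := hLip (fun i => fp (fun t => ((yy (n i) : ℝ) : ℂ) - Hh (a k) t) (La (a k))⁻¹)
            (fun i => TT (1 / 2 + x) (yy (n i)) (La (a k))⁻¹ (ph (Y (k + N)))) (C / Y (k + N))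
            (fun i => (hf M _ _ hM1 (hGM i) (hwM k)).1)
            (fun i => ((hT i).1 (ph (Y (k + N))) (fun p => (hphn k p).le) _ (hwr k)).1)
            (by positivity) hdiff
          rw [hz, zero_sub, norm_neg] at h2
          exact h2
        rw [norm_div, norm_pow, norm_inv, inv_pow, div_inv_eq_mul]
        calc _ ≤ L * (C / Y (k + N)) * ‖La (a k)‖ ^ j :=
              mul_le_mul_of_nonneg_right hval (by positivity)
          _ = L * C * (‖La (a k)‖ ^ j / Y (k + N)) := by ring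
      have hlim : Tendsto (fun k => L * C * (‖La (a k)‖ ^ j / Y (k + N))) atTop (𝓝 (L * C * 0)) :=
        (((hl4 x hx10 j).comp hY).comp hNt).const_mul (L * C)
      rw [mul_zero] at hlim
      exact squeeze_zero (fun k => norm_nonneg _) hbd hlim

end Pool.Agent.W186.AI.TorP
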